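import Pool.Agent.Helper14.SQ.Volume

/-!
# No quasi-plane in a half space of Sol: iteration of the return lemma and a volume count
-/

namespace Helper67.SQ

open Real Finset

/-- The indices of the descendants of `v`, `m` levels below, whose ray exceeds the height `B`. -/
noncomputable def Bad (T : V → ℝ) (B : ℝ) (v : V) (m : ℕ) : Finset ℕ :=
  open Classical in (range (2 ^ m)).filter fun idx => ∃ a ≤ m, B < T (ray v m idx a)

theorem mem_Bad {T : V → ℝ} {B : ℝ} {v : V} {m idx : ℕ} :
    idx ∈ Bad T B v m ↔ idx < 2 ^ m ∧ ∃ a ≤ m, B < T (ray v m idx a) := by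
  unfold Bad
  simp

theorem ray_eq_of_div {v : V} {m i j a b : ℕ} (ham : a ≤ m) (hba : b ≤ a)
    (h : i / 2 ^ (m - a) = j / 2 ^ (m - a)) : ray v m i b = ray v m j b := by
  have e : m - b = (m - a) + (a - b) := by omega
  unfold ray
  rw [e, pow_add, ← Nat.div_div_eq_div_mul, ← Nat.div_div_eq_div_mul, h]

theorem ray_prefix {v : V} {m n i b : ℕ} (hnm : n ≤ m) (hb : b ≤ n) :
    ray v m i b = ray v n (i / 2 ^ (m - n)) b := by
  have e : m - b = (m - n) + (n - b) := by omega
  unfold ray
  rw [e, pow_add, ← Nat.div_div_eq_div_mul]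

theorem card_fiber_div_le (s : Finset ℕ) (k u : ℕ) (hk : 0 < k) :
    (s.filter fun i => i / k = u).card ≤ k := by
  have : (s.filter fun i => i / k = u) ⊆ Finset.Ico (u * k) (u * k + k) := by
    intro i hi
    simp only [mem_filter] at hi
    rw [Finset.mem_Ico]
    constructor
    · rw [← hi.2]; exact Nat.div_mul_le_self i k
    · rw [← hi.2]; exact Nat.lt_div_mul_add hk
  calc _ ≤ (Finset.Ico (u * k) (u * k + k)).card := Finset.card_le_card this
    _ = k := by rw [Nat.card_Ico]; omega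

/-- Indices whose prefix of length `n` lies in a set `N`. -/
theorem card_prefix_le {m n : ℕ} (s N : Finset ℕ)
    (h : ∀ i ∈ s, i / 2 ^ (m - n) ∈ N) : s.card ≤ 2 ^ (m - n) * N.card :=
  Finset.card_le_mul_card_image_of_maps_to (f := fun i => i / 2 ^ (m - n)) h _
    (fun b _ => card_fiber_div_le s _ b (by positivity))

theorem bad_step {T : V → ℝ} {B thr lo κ K' : ℝ} {v : V} {m n : ℕ} (hnm : n ≤ m) (hK' : 0 ≤ K')
    (hlow : ∀ idx, idx < 2 ^ n → ∀ a ≤ n, T (ray v n idx a) ≤ B)
    (hNR : ∀ S : Finset ℕ, (∀ i ∈ S, i < 2 ^ n ∧ ∀ a : ℕ, lo ≤ a → a ≤ n →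
      thr < T (ray v n i a)) → (S.card : ℝ) ≤ κ * 2 ^ n)
    (hIH : ∀ a : ℕ, lo ≤ a → a ≤ n → ∀ w, T w ≤ thr →
      ((Bad T B w (m - a)).card : ℝ) ≤ K' * 2 ^ (m - a)) :
    ((Bad T B v m).card : ℝ) ≤ (K' + κ) * 2 ^ m := by
  classical
  set R : ℕ → ℕ → Prop := fun idx a => lo ≤ a ∧ a ≤ n ∧ T (ray v m idx a) ≤ thr with hR
  -- the non-returning part
  have h1 : (((Bad T B v m).filter fun idx => ¬ ∃ a, R idx a).card : ℝ) ≤ κ * 2 ^ m := by
    set N := (range (2 ^ n)).filter fun i => ∀ a : ℕ, lo ≤ a → a ≤ n → thr < T (ray v n i a)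
      with hN
    have hNc : (N.card : ℝ) ≤ κ * 2 ^ n := by
      apply hNR
      intro i hi
      rw [hN, mem_filter, mem_range] at hi
      exact hi
    have hs : ∀ i ∈ ((Bad T B v m).filter fun idx => ¬ ∃ a, R idx a),
        i / 2 ^ (m - n) ∈ N := by
      intro i hi
      rw [mem_filter, mem_Bad] at hi
      obtain ⟨⟨hi1, -⟩, hi2⟩ := hi
      rw [hN, mem_filter, mem_range]
      constructor
      · rw [Nat.div_lt_iff_lt_mul (by positivity), ← pow_add]
        rwa [show n + (m - n) = m by omega]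
      · intro a ha1 ha2
        by_contra hcon
        rw [not_lt] at hcon
        apply hi2
        exact ⟨a, ha1, ha2, by rwa [ray_prefix hnm ha2]⟩
    have h2 := card_prefix_le _ N hs
    have h3 : (((Bad T B v m).filter fun idx => ¬ ∃ a, R idx a).card : ℝ) ≤
        2 ^ (m - n) * N.card := by exact_mod_cast h2
    calc _ ≤ (2 : ℝ) ^ (m - n) * N.card := h3
      _ ≤ 2 ^ (m - n) * (κ * 2 ^ n) := by gcongr
      _ = κ * 2 ^ m := by
        rw [show (2 : ℝ) ^ (m - n) * (κ * 2 ^ n) = κ * (2 ^ (m - n) * 2 ^ n) by ring, ← pow_add,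
          Nat.sub_add_cancel hnm]
  -- the returning part
  have h2 : (((Bad T B v m).filter fun idx => ∃ a, R idx a).card : ℝ) ≤ K' * 2 ^ m := by
    set A := (range (2 ^ m)).filter fun idx => ∃ a, R idx a with hA
    set f : ℕ → ℕ := fun idx => if h : ∃ a, R idx a then Nat.find h else 0 with hf
    have hfR : ∀ idx ∈ A, R idx (f idx) := by
      intro idx hidx
      rw [hA, mem_filter] at hidx
      have : f idx = Nat.find hidx.2 := by
        simp only [hf]
        rw [dif_pos hidx.2]
      rw [this]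
      exact Nat.find_spec hidx.2
    have hfmin : ∀ idx ∈ A, ∀ b, R idx b → f idx ≤ b := by
      intro idx hidx b hb
      rw [hA, mem_filter] at hidx
      have : f idx = Nat.find hidx.2 := by
        simp only [hf]
        rw [dif_pos hidx.2]
      rw [this]
      exact Nat.find_min' hidx.2 hb
    set g : ℕ → ℕ × ℕ := fun idx => (f idx, idx / 2 ^ (m - f idx)) with hg
    set Bd := (Bad T B v m).filter fun idx => ∃ a, R idx a with hBd
    have hBdA : ∀ idx ∈ Bd, idx ∈ A := by
      intro idx h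
      rw [hBd, mem_filter, mem_Bad] at h
      rw [hA, mem_filter, mem_range]
      exact ⟨h.1.1, h.2⟩
    have e1 : (Bd.card : ℝ) = ∑ y ∈ A.image g, ((Bd.filter fun idx => g idx = y).card : ℝ) := by
      have := Finset.card_eq_sum_card_fiberwise (f := g) (s := Bd) (t := A.image g)
        (fun x hx => by
          have := hBdA x hx
          simp only [coe_image, Set.mem_image, mem_coe]
          exact ⟨x, this, rfl⟩)
      rw [this]
      push_cast
      rfl
    have e2 : (A.card : ℝ) = ∑ y ∈ A.image g, ((A.filter fun idx => g idx = y).card : ℝ) := by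
      have := Finset.card_eq_sum_card_fiberwise (f := g) (s := A) (t := A.image g)
        (fun x hx => by
          simp only [coe_image, Set.mem_image, mem_coe]
          exact ⟨x, hx, rfl⟩)
      rw [this]
      push_cast
      rfl
    have key : ∀ y ∈ A.image g, ((Bd.filter fun idx => g idx = y).card : ℝ) ≤
        K' * ((A.filter fun idx => g idx = y).card : ℝ) := by
      intro y hy
      rw [mem_image] at hy
      obtain ⟨i₀, hi₀, rfl⟩ := hy
      obtain ⟨hlo, han, hthr⟩ := hfR i₀ hi₀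
      set a := f i₀ with ha
      have ham : a ≤ m := han.trans hnm
      have hi₀' : i₀ < 2 ^ m := by
        rw [hA, mem_filter, mem_range] at hi₀; exact hi₀.1
      set w := ray v m i₀ a with hw
      -- size of the fibre
      have hfib : 2 ^ (m - a) ≤ (A.filter fun idx => g idx = g i₀).card := by
        have hsub : Finset.Ico (i₀ / 2 ^ (m - a) * 2 ^ (m - a))
            (i₀ / 2 ^ (m - a) * 2 ^ (m - a) + 2 ^ (m - a)) ⊆
            A.filter fun idx => g idx = g i₀ := by
          intro i hi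
          rw [Finset.mem_Ico] at hi
          have hdiv : i / 2 ^ (m - a) = i₀ / 2 ^ (m - a) := by
            apply Nat.div_eq_of_lt_le
            · exact hi.1
            · rw [add_mul, one_mul]; exact hi.2
          have hlt : i < 2 ^ m := by
            have h3 : i₀ / 2 ^ (m - a) < 2 ^ a := by
              rw [Nat.div_lt_iff_lt_mul (by positivity), ← pow_add]
              rwa [show a + (m - a) = m by omega]
            have h4 : i / 2 ^ (m - a) < 2 ^ a := by rw [hdiv]; exact h3
            rw [Nat.div_lt_iff_lt_mul (by positivity), ← pow_add] at h4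
            rwa [show a + (m - a) = m by omega] at h4
          have hRR : ∀ b ≤ a, (R i b ↔ R i₀ b) := by
            intro b hb
            simp only [hR]
            rw [ray_eq_of_div ham hb hdiv]
          have hiA : i ∈ A := by
            rw [hA, mem_filter, mem_range]
            exact ⟨hlt, a, (hRR a le_rfl).2 (hfR i₀ hi₀)⟩
          have hfi : f i = a := by
            apply le_antisymm
            · exact hfmin i hiA a ((hRR a le_rfl).2 (hfR i₀ hi₀))
            · by_contra hcon
              rw [not_le] at hcon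
              have h5 := hfR i hiA
              rw [hRR _ hcon.le] at h5
              have h6 := hfmin i₀ hi₀ _ h5
              omega
          rw [mem_filter]
          refine ⟨hiA, ?_⟩
          simp only [hg]
          rw [hfi, hdiv]
        calc 2 ^ (m - a) = (Finset.Ico (i₀ / 2 ^ (m - a) * 2 ^ (m - a))
            (i₀ / 2 ^ (m - a) * 2 ^ (m - a) + 2 ^ (m - a))).card := by
              rw [Nat.card_Ico, Nat.add_sub_cancel_left]
          _ ≤ _ := Finset.card_le_card hsub
      -- the bad ones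
      have hbad : (Bd.filter fun idx => g idx = g i₀).card ≤ (Bad T B w (m - a)).card := by
        apply Finset.card_le_card_of_injOn (fun i => i % 2 ^ (m - a))
        · intro i hi
          rw [mem_coe, mem_filter, hBd, mem_filter, mem_Bad] at hi
          obtain ⟨⟨⟨hi1, b, hb1, hb2⟩, -⟩, hgi⟩ := hi
          simp only [hg, Prod.mk.injEq] at hgi
          obtain ⟨hfi, hdi⟩ := hgi
          rw [hfi] at hdi
          change i % 2 ^ (m - a) ∈ Bad T B w (m - a)
          rw [mem_Bad]
          refine ⟨Nat.mod_lt _ (by positivity), ?_⟩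
          have hab : n < b := by
            by_contra hcon
            rw [not_lt] at hcon
            rw [ray_prefix hnm hcon] at hb2
            have := hlow (i / 2 ^ (m - n)) (by
              rw [Nat.div_lt_iff_lt_mul (by positivity), ← pow_add]
              rwa [show n + (m - n) = m by omega]) b hcon
            linarith
          refine ⟨b - a, by omega, ?_⟩
          have hwi : w = ray v m i a := by
            rw [hw]
            exact ray_eq_of_div ham le_rfl hdi.symm
          have h7 := ray_ray v m i a (m - a) (b - a) (by omega) (by omega)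
          rw [show m - (a + (m - a)) = 0 by omega, pow_zero, Nat.div_one,
            show a + (b - a) = b by omega] at h7
          rw [hwi, h7]
          exact hb2
        · intro i hi j hj hij
          rw [mem_coe, mem_filter] at hi hj
          have hgi := hi.2
          have hgj := hj.2
          simp only [hg, Prod.mk.injEq] at hgi hgj
          obtain ⟨hfi, hdi⟩ := hgi
          obtain ⟨hfj, hdj⟩ := hgj
          rw [hfi] at hdi
          rw [hfj] at hdj
          change i % 2 ^ (m - a) = j % 2 ^ (m - a) at hij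
          rw [← Nat.div_add_mod i (2 ^ (m - a)), ← Nat.div_add_mod j (2 ^ (m - a)), hij, hdi, hdj]
      calc ((Bd.filter fun idx => g idx = g i₀).card : ℝ) ≤ (Bad T B w (m - a)).card := by
            exact_mod_cast hbad
        _ ≤ K' * 2 ^ (m - a) := hIH a hlo han w hthr
        _ ≤ K' * ((A.filter fun idx => g idx = g i₀).card : ℝ) := by
            gcongr
            exact_mod_cast hfib
    have hAc : (A.card : ℝ) ≤ 2 ^ m := by
      have : A.card ≤ (range (2 ^ m)).card := Finset.card_le_card (Finset.filter_subset _ _)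
      rw [card_range] at this
      exact_mod_cast this
    calc (Bd.card : ℝ) = ∑ y ∈ A.image g, ((Bd.filter fun idx => g idx = y).card : ℝ) := e1
      _ ≤ ∑ y ∈ A.image g, K' * ((A.filter fun idx => g idx = y).card : ℝ) :=
          Finset.sum_le_sum key
      _ = K' * A.card := by rw [← Finset.mul_sum, ← e2]
      _ ≤ K' * 2 ^ m := by gcongr
  have h3 := Finset.card_filter_add_card_filter_not (s := Bad T B v m) (fun idx => ∃ a, R idx a)
  have h4 : ((Bad T B v m).card : ℝ) =
      (((Bad T B v m).filter fun idx => ∃ a, R idx a).card : ℝ) +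
      (((Bad T B v m).filter fun idx => ¬ ∃ a, R idx a).card : ℝ) := by
    exact_mod_cast h3.symm
  rw [h4]
  linarith

/-- The iteration. -/
theorem bad_claim {Λ : ℝ} {X Y T : V → ℝ} (h : Coarse Λ X Y T) {n J : ℕ} {c₀ κ : ℝ}
    (hκ : 0 < κ) {η : ℕ → ℝ} (hη1 : ∀ i ≤ J, η i ≤ 1)
    (hret : ∀ i < J, ∀ v, T v ≤ η i * n → ∀ S : Finset ℕ, (∀ i' ∈ S, i' < 2 ^ n ∧
      ∀ a : ℕ, c₀ * n ≤ a → a ≤ n → η (i + 1) * n < T (ray v n i' a)) →
      (S.card : ℝ) ≤ κ * 2 ^ n) :
    ∀ k ≤ J, ∀ v, T v ≤ η (J - k) * n → ∀ m : ℕ, (m : ℝ) ≤ k * c₀ * n →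
      ((Bad T ((1 + Λ) * n) v m).card : ℝ) ≤ k * κ * 2 ^ m := by
  have hΛ : 1 ≤ Λ := h.one_le
  have hn0 : (0 : ℝ) ≤ n := Nat.cast_nonneg n
  -- rays of length at most n stay below (1 + Λ) n
  have hshort : ∀ i ≤ J, ∀ v, T v ≤ η i * n → ∀ m idx : ℕ, idx < 2 ^ m → ∀ a ≤ m, a ≤ n →
      T (ray v m idx a) ≤ (1 + Λ) * n := by
    intro i hi v hv m idx hidx a ham han
    have h1 := h.near_T (ray_near v m idx 0 a (Nat.zero_le a) ham)
    rw [ray_zero v m idx hidx, abs_le] at h1
    have h2 : η i * n ≤ 1 * n := by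
      apply mul_le_mul_of_nonneg_right (hη1 i hi) hn0
    have h3 : Λ * ((a - 0 : ℕ) : ℝ) ≤ Λ * n := by
      apply mul_le_mul_of_nonneg_left _ (by linarith)
      exact_mod_cast han
    nlinarith [h1.1, h1.2]
  intro k
  induction k with
  | zero =>
    intro _ v hv m hm
    have hm0 : m = 0 := by
      have : (m : ℝ) ≤ 0 := by simpa using hm
      exact_mod_cast le_antisymm this (Nat.cast_nonneg m)
    subst hm0
    have : Bad T ((1 + Λ) * n) v 0 = ∅ := by
      rw [Finset.eq_empty_iff_forall_notMem]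
      intro idx hidx
      rw [mem_Bad] at hidx
      obtain ⟨h1, a, ha, hb⟩ := hidx
      have := hshort (J - 0) (by omega) v hv 0 idx h1 a ha (by omega)
      linarith
    rw [this]
    simp
  | succ k ih =>
    intro hk v hv m hm
    rcases le_total m n with hmn | hnm
    · have : Bad T ((1 + Λ) * n) v m = ∅ := by
        rw [Finset.eq_empty_iff_forall_notMem]
        intro idx hidx
        rw [mem_Bad] at hidx
        obtain ⟨h1, a, ha, hb⟩ := hidx
        have := hshort (J - (k + 1)) (by omega) v hv m idx h1 a ha (by omega)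
        linarith
      rw [this]
      simp only [card_empty, Nat.cast_zero]
      positivity
    · have hstep := bad_step (T := T) (B := (1 + Λ) * n) (thr := η (J - k) * n) (lo := c₀ * n)
        (κ := κ) (K' := k * κ) (v := v) hnm (by positivity)
        (fun idx hidx a ha => hshort (J - (k + 1)) (by omega) v hv n idx hidx a ha ha)
        (by
          have := hret (J - (k + 1)) (by omega) v hv
          rw [show J - (k + 1) + 1 = J - k by omega] at this
          exact this)
        (by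
          intro a hlo han w hw
          apply ih (by omega) w hw
          push_cast [han.trans hnm]
          push_cast at hm
          linarith)
      calc _ ≤ _ := hstep
        _ = _ := by push_cast; ring

theorem exp_beats (K : ℝ) : ∃ N : ℕ, ∀ n : ℕ, N ≤ n → K * (n : ℝ) ^ 3 < exp n := by
  obtain ⟨N, hN⟩ := exists_nat_gt (24 * max K 0)
  refine ⟨N + 1, fun n hn => ?_⟩
  have h1 : (n : ℝ) ^ 4 / (Nat.factorial 4) ≤ exp n :=
    Real.pow_div_factorial_le_exp n (Nat.cast_nonneg n) 4
  have hn1 : (N : ℝ) + 1 ≤ n := by exact_mod_cast hn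
  have hK : 0 ≤ max K 0 := le_max_right _ _
  have hK2 : K ≤ max K 0 := le_max_left _ _
  have hnpos : (0 : ℝ) < n := by linarith
  have h3 : (0 : ℝ) < (n : ℝ) ^ 3 := by positivity
  have h4 : (Nat.factorial 4 : ℝ) = 24 := by norm_num [Nat.factorial]
  rw [h4] at h1
  calc K * (n : ℝ) ^ 3 ≤ max K 0 * (n : ℝ) ^ 3 := by gcongr
    _ < n / 24 * (n : ℝ) ^ 3 := by
        apply mul_lt_mul_of_pos_right _ h3
        linarith
    _ = (n : ℝ) ^ 4 / 24 := by ring
    _ ≤ exp n := h1

/-- The statement of `returns`. -/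
def Returns (Λ : ℝ) : Prop := ∃ c₀ a₁ : ℝ, 0 < c₀ ∧ c₀ ≤ 1 / 2 ∧ 0 < a₁ ∧
    ∀ η η' κ : ℝ, 0 ≤ η → η < η' → η' ≤ a₁ → 0 < κ → ∃ n₂ : ℕ,
    ∀ X Y T : V → ℝ, Coarse Λ X Y T → (∀ p, 0 ≤ T p) →
    ∀ n : ℕ, n₂ ≤ n → ∀ v : V, T v ≤ η * n →
    ∀ S : Finset ℕ, (∀ i ∈ S, i < 2 ^ n ∧
      ∀ a : ℕ, c₀ * n ≤ a → a ≤ n → η' * n < T (ray v n i a)) → (S.card : ℝ) ≤ κ * 2 ^ n

/-- `no_halfspace` from `returns` (use `no_halfspace_of Λ hΛ (returns Λ hΛ)`). -/
theorem no_halfspace_of (Λ : ℝ) (hΛ : 1 ≤ Λ) (hreturns : Returns Λ)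
    (X Y T : V → ℝ) (h : Coarse Λ X Y T) (hT : ∀ p, 0 ≤ T p) : False := by
  classical
  obtain ⟨c₀, a₁, hc₀, -, ha₁, hret⟩ := hreturns
  obtain ⟨C, hC, hvol⟩ := volume_bound Λ hΛ
  have hlog : 0 < Real.log 2 := Real.log_pos (by norm_num)
  obtain ⟨L, hL⟩ := exists_nat_ge ((2 + Λ) / Real.log 2)
  have hL2 : 2 + Λ ≤ L * Real.log 2 := by
    rwa [div_le_iff₀ hlog] at hL
  obtain ⟨J, hJ⟩ := exists_nat_ge (L / c₀)
  have hJ2 : (L : ℝ) ≤ J * c₀ := by
    rwa [div_le_iff₀ hc₀] at hJ
  have hLpos : (0 : ℝ) < L := by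
    by_contra hcon
    rw [not_lt] at hcon
    nlinarith
  have hJpos : (0 : ℝ) < J := by
    by_contra hcon
    rw [not_lt] at hcon
    nlinarith
  set a₂ := min a₁ 1 with ha₂
  have ha₂pos : 0 < a₂ := lt_min ha₁ one_pos
  set η : ℕ → ℝ := fun i => a₂ * ((i + 1) / (J + 1)) with hη
  set κ : ℝ := 1 / (2 * J) with hκ
  have hκpos : 0 < κ := by positivity
  have hηle : ∀ i ≤ J, η i ≤ a₂ := by
    intro i hi
    have : ((i : ℝ) + 1) / (J + 1) ≤ 1 := by
      rw [div_le_one (by positivity)]
      have : (i : ℝ) ≤ J := by exact_mod_cast hi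
      linarith
    calc a₂ * ((i + 1) / (J + 1)) ≤ a₂ * 1 := by gcongr
      _ = a₂ := mul_one _
  have hηpos : ∀ i, 0 < η i := fun i => by simp only [hη]; positivity
  have hηlt : ∀ i, η i < η (i + 1) := by
    intro i
    simp only [hη]
    apply mul_lt_mul_of_pos_left _ ha₂pos
    apply div_lt_div_of_pos_right _ (by positivity)
    push_cast
    linarith
  have hret2 : ∀ i : ℕ, ∃ n₂ : ℕ, i < J → ∀ n : ℕ, n₂ ≤ n → ∀ v : V, T v ≤ η i * n →
      ∀ S : Finset ℕ, (∀ i' ∈ S, i' < 2 ^ n ∧
      ∀ a : ℕ, c₀ * n ≤ a → a ≤ n → η (i + 1) * n < T (ray v n i' a)) →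
      (S.card : ℝ) ≤ κ * 2 ^ n := by
    intro i
    by_cases hi : i < J
    · obtain ⟨n₂, hn₂⟩ := hret (η i) (η (i + 1)) κ (hηpos i).le (hηlt i)
        ((hηle (i + 1) (by omega)).trans (min_le_left _ _)) hκpos
      exact ⟨n₂, fun _ n hn v hv S hS => hn₂ X Y T h hT n hn v hv S hS⟩
    · exact ⟨0, fun h => absurd h hi⟩
  choose n₂ hn₂ using hret2
  obtain ⟨N₁, hN₁⟩ := exists_nat_ge (T (0, 0) / η 0)
  obtain ⟨N₂, hN₂⟩ := exp_beats (2 * C * (Λ * L + 1) * (2 + Λ) * (L * Λ))
  set n := (Finset.range J).sup n₂ + N₁ + N₂ + 1 with hn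
  have hn1 : (1 : ℝ) ≤ n := by
    have : 1 ≤ n := by omega
    exact_mod_cast this
  have hTo : T (0, 0) ≤ η 0 * n := by
    have h1 : (N₁ : ℝ) ≤ n := by
      have : N₁ ≤ n := by omega
      exact_mod_cast this
    have h2 := hN₁.trans h1
    rwa [div_le_iff₀ (hηpos 0), mul_comm] at h2
  have hclaim := bad_claim h (n := n) (J := J) (c₀ := c₀) hκpos (η := η)
    (fun i hi => (hηle i hi).trans (min_le_right _ _))
    (fun i hi v hv S hS => hn₂ i hi n
      (by
        have : n₂ i ≤ (Finset.range J).sup n₂ := Finset.le_sup (by simpa using hi)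
        omega) v hv S hS)
    J le_rfl (0, 0) (by rw [Nat.sub_self]; exact hTo) (L * n)
    (by
      push_cast
      exact mul_le_mul_of_nonneg_right hJ2 (by positivity))
  have hhalf : (J : ℝ) * κ = 1 / 2 := by
    rw [hκ]; field_simp
  rw [hhalf] at hclaim
  set m := L * n with hm
  set G := (range (2 ^ m)) \ Bad T ((1 + Λ) * n) (0, 0) m with hG
  have hGcard : (2 : ℝ) ^ m / 2 ≤ G.card := by
    have h1 : (range (2 ^ m)).card - (Bad T ((1 + Λ) * n) (0, 0) m).card ≤ G.card :=
      Finset.le_card_sdiff _ _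
    rw [card_range] at h1
    have h2 : 2 ^ m ≤ G.card + (Bad T ((1 + Λ) * n) (0, 0) m).card := by omega
    have h3 : (2 : ℝ) ^ m ≤ G.card + (Bad T ((1 + Λ) * n) (0, 0) m).card := by
      exact_mod_cast h2
    linarith
  have hGT : ∀ idx ∈ G, idx < 2 ^ m ∧ ∀ a ≤ m, T (ray (0, 0) m idx a) ≤ (1 + Λ) * n := by
    intro idx hidx
    rw [hG, mem_sdiff, mem_range, mem_Bad] at hidx
    refine ⟨hidx.1, fun a ha => ?_⟩
    by_contra hcon
    exact hidx.2 ⟨hidx.1, a, ha, not_le.1 hcon⟩
  set S := G.image fun idx => desc (0, 0) m idx with hS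
  have hScard : S.card = G.card := by
    apply Finset.card_image_of_injective
    intro i j hij
    simp only [desc, Prod.mk.injEq] at hij
    have := hij.2
    omega
  have hmpos : 1 ≤ m := by
    rw [hm]
    have h1 : 0 < L := by exact_mod_cast hLpos
    exact Nat.succ_le_of_lt (Nat.mul_pos h1 (by omega))
  have hmR : (1 : ℝ) ≤ m := by exact_mod_cast hmpos
  have hbox : ∀ p ∈ S, 0 ≤ T p ∧ T p ≤ (1 + Λ) * n ∧ |X p - X (0, 0)| ≤ Λ * m ∧
      |Y p - Y (0, 0)| ≤ m * Λ * exp ((1 + Λ) * n) := by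
    intro p hp
    rw [hS, mem_image] at hp
    obtain ⟨idx, hidx, rfl⟩ := hp
    obtain ⟨h1, h2⟩ := hGT idx hidx
    refine ⟨hT _, ?_, ?_, ?_⟩
    · have := h2 m le_rfl
      rwa [ray_last] at this
    · have h3 := ray_near (0, 0) m idx 0 m (Nat.zero_le _) le_rfl
      rw [ray_zero _ _ _ h1, ray_last] at h3
      have := h.near_X_of_nonneg hT h3
      rwa [abs_sub_comm, Nat.sub_zero] at this
    · have h4 : ∀ a ≤ m, |Y (ray (0, 0) m idx a) - Y (0, 0)| ≤
          a * (Λ * exp ((1 + Λ) * n)) := by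
        intro a
        induction a with
        | zero => intro _; rw [ray_zero _ _ _ h1]; simp
        | succ a ih =>
          intro ha
          have h5 := h.y_step _ _ (ray_adj (0, 0) m idx a (by omega))
          have h6 := ih (by omega)
          have h7 : Λ * exp (T (ray (0, 0) m idx a)) ≤ Λ * exp ((1 + Λ) * n) := by
            apply mul_le_mul_of_nonneg_left _ (by linarith)
            exact Real.exp_le_exp.2 (h2 a (by omega))
          rw [abs_le] at h5 h6 ⊢
          push_cast
          constructor <;> nlinarith [h5.1, h5.2, h6.1, h6.2]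
      have := h4 m le_rfl
      rw [ray_last] at this
      linarith
  have hv := hvol X Y T h S (X (0, 0)) (Y (0, 0)) (Λ * m) (m * Λ * exp ((1 + Λ) * n))
    ((1 + Λ) * n) (by positivity) (by positivity)
    (by
      have : 1 ≤ (m : ℝ) * Λ := by nlinarith
      have h9 := exp_pos ((1 + Λ) * n)
      nlinarith) hbox
  rw [hScard] at hv
  -- the count
  have h10 : exp ((2 + Λ) * n) ≤ (2 : ℝ) ^ m := by
    have e : (2 : ℝ) ^ m = exp (m * Real.log 2) := by
      rw [mul_comm, Real.exp_mul, Real.exp_log (by norm_num), Real.rpow_natCast]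
    rw [e, Real.exp_le_exp, hm]
    push_cast
    nlinarith
  have h11 : exp ((2 + Λ) * n) = exp n * exp ((1 + Λ) * n) := by
    rw [← Real.exp_add]; ring_nf
  have h12 : exp n * exp ((1 + Λ) * n) ≤
      2 * (C * (Λ * m + 1) * ((1 + Λ) * n + 1) * (m * Λ * exp ((1 + Λ) * n))) := by
    rw [← h11]
    linarith
  have h13 : exp (n : ℝ) ≤ 2 * (C * (Λ * m + 1) * ((1 + Λ) * n + 1) * (m * Λ)) := by
    have hpos := exp_pos ((1 + Λ) * n)
    have : exp (n : ℝ) * exp ((1 + Λ) * n) ≤
      (2 * (C * (Λ * m + 1) * ((1 + Λ) * n + 1) * (m * Λ))) * exp ((1 + Λ) * n) := by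
      calc _ ≤ _ := h12
        _ = _ := by ring
    exact le_of_mul_le_mul_right this hpos
  have h14 := hN₂ n (by omega)
  have hmc : (m : ℝ) = L * n := by rw [hm]; push_cast; ring
  have h15 : 2 * (C * (Λ * m + 1) * ((1 + Λ) * n + 1) * (m * Λ)) ≤
      2 * C * (Λ * L + 1) * (2 + Λ) * (L * Λ) * (n : ℝ) ^ 3 := by
    rw [hmc]
    have hA : Λ * (L * n) + 1 ≤ (Λ * L + 1) * n := by nlinarith
    have hB : (1 + Λ) * n + 1 ≤ (2 + Λ) * n := by nlinarith
    have hA0 : 0 ≤ Λ * (L * n) + 1 := by positivity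
    have hB0 : 0 ≤ (1 + Λ) * n + 1 := by positivity
    calc 2 * (C * (Λ * (L * n) + 1) * ((1 + Λ) * n + 1) * (L * n * Λ))
        ≤ 2 * (C * ((Λ * L + 1) * n) * ((2 + Λ) * n) * (L * n * Λ)) := by gcongr
      _ = _ := by ring
  linarith

end Helper67.SQ
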